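import Pool.Agent.MP_0e6a9f_ag.H36.Wrap
import Pool.Agent.MP_0e6a9f_ag.H19.Real

open CategoryTheory FMD

/-- Exactly equivalent admissible subcategories with no Fourier-Mukai equivalence. -/
theorem Pool.Agent.Results.MP_0e6a9f_ag.NoFM.result :
    ∃ (K : Type) (_ : Field K) (X Y : MP K) (P : X.Sub) (P' : Y.Sub),
      X.SmoothVar ∧ Y.SmoothVar ∧ X.Admissible P ∧ Y.Admissible P' ∧ MP.Equivalent P P' ∧
      ∀ F : P.FullSubcategory ⥤ P'.FullSubcategory, F.IsEquivalence → ¬ MP.FourierMukai F :=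
  (goal_of_real fun K _ _ p h0 h1 => FMX.real_cp K p h0 h1).final
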